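import Pool.Agent.MP_235f01_an.Final

set_option autoImplicit false

namespace Pool.Agent.Results.MP_235f01_an.SuperAdpWithScdBall

universe u

/-- The super alternative Daugavet property of a real normed space `X`: for every `x` in the unit
sphere and every nonempty relatively weakly open subset `W` of the closed unit ball, the supremum
over `y ∈ W` of `max (‖x + y‖) (‖x - y‖)` equals `2`. -/
def SuperADP (X : Type u) [NormedAddCommGroup X] [NormedSpace ℝ X] : Prop :=
  ∀ x : X, ‖x‖ = 1 → ∀ U : Set (WeakSpace ℝ X), IsOpen U →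
    {y : X | ‖y‖ ≤ 1 ∧ toWeakSpace ℝ X y ∈ U}.Nonempty →
    IsLUB ((fun y : X => max ‖x + y‖ ‖x - y‖) '' {y : X | ‖y‖ ≤ 1 ∧ toWeakSpace ℝ X y ∈ U}) 2

/-- The slice `{x ∈ A : f x > sup f(A) - δ}` of a set `A`. -/
def slice {X : Type u} [NormedAddCommGroup X] [NormedSpace ℝ X] (A : Set X) (f : X →L[ℝ] ℝ)
    (δ : ℝ) : Set X := {x | x ∈ A ∧ sSup (f '' A) - δ < f x}

/-- `A` is slicely countably determined: there is a sequence of nonempty slices of `A` such that
every slice of `A` contains one of them. -/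
def IsSCD {X : Type u} [NormedAddCommGroup X] [NormedSpace ℝ X] (A : Set X) : Prop :=
  ∃ (f : ℕ → X →L[ℝ] ℝ) (δ : ℕ → ℝ), (∀ n, 0 < δ n ∧ (slice A (f n) (δ n)).Nonempty) ∧
    ∀ (g : X →L[ℝ] ℝ) (ε : ℝ), 0 < ε → ∃ n, slice A (f n) (δ n) ⊆ slice A g ε

/-- There is an infinite-dimensional real Banach space with the super alternative Daugavet
property whose closed unit ball is slicely countably determined. -/
theorem result : ∃ (X : Type) (_ : NormedAddCommGroup X) (_ : NormedSpace ℝ X),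
    CompleteSpace X ∧ ¬ FiniteDimensional ℝ X ∧ SuperADP X ∧
      IsSCD (Metric.closedBall (0 : X) 1) := by
  obtain ⟨X, i1, i2, hX, hinf, hadp, f, δ, hδ, hf⟩ := Pool.Agent.MP_235f01_an.final
  refine ⟨X, i1, i2, hX, hinf, hadp, f, δ, fun n => ⟨hδ n, ?_⟩, hf⟩
  have hne : ((f n) '' Metric.closedBall (0 : X) 1).Nonempty :=
    ⟨f n 0, 0, by simp, rfl⟩
  obtain ⟨_, ⟨x, hx, rfl⟩, h⟩ := exists_lt_of_lt_csSup hne
    (sub_lt_self (sSup ((f n) '' Metric.closedBall (0 : X) 1)) (hδ n))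
  exact ⟨x, hx, h⟩

end Pool.Agent.Results.MP_235f01_an.SuperAdpWithScdBall
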