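import Mathlib

set_option autoImplicit false

namespace Pool.Agent.Results.MP_235f01_an.UnconditionalFails

universe u

open Filter Topology

/-- The super alternative Daugavet property of a real normed space `X`: for every `x` in the unit
sphere and every nonempty relatively weakly open subset `W` of the closed unit ball, the supremum
over `y ∈ W` of `max (‖x + y‖) (‖x - y‖)` equals `2`. -/
def SuperADP (X : Type u) [NormedAddCommGroup X] [NormedSpace ℝ X] : Prop :=
  ∀ x : X, ‖x‖ = 1 → ∀ U : Set (WeakSpace ℝ X), IsOpen U →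
    {y : X | ‖y‖ ≤ 1 ∧ toWeakSpace ℝ X y ∈ U}.Nonempty →
    IsLUB ((fun y : X => max ‖x + y‖ ‖x - y‖) '' {y : X | ‖y‖ ≤ 1 ∧ toWeakSpace ℝ X y ∈ U}) 2

/-- A Schauder basis is `1`-unconditional if changing signs of the coefficients of a finitely
supported vector does not change its norm. -/
def OneUnconditional {X : Type u} [NormedAddCommGroup X] [NormedSpace ℝ X]
    (b : SchauderBasis ℝ X) : Prop :=
  ∀ (s : Finset ℕ) (a ε : ℕ → ℝ), (∀ n, ε n = 1 ∨ ε n = -1) →
    ‖∑ n ∈ s, (ε n * a n) • b n‖ = ‖∑ n ∈ s, a n • b n‖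

section aux

variable {X : Type u} [NormedAddCommGroup X] [NormedSpace ℝ X] (b : SchauderBasis ℝ X)

/-- Restricting the support does not increase the norm. -/
lemma norm_sum_le_of_subset (hb : OneUnconditional b) {s t : Finset ℕ} (hst : s ⊆ t) (a : ℕ → ℝ) :
    ‖∑ n ∈ s, a n • b n‖ ≤ ‖∑ n ∈ t, a n • b n‖ := by
  classical
  set ε : ℕ → ℝ := fun n => if n ∈ s then 1 else -1 with hε
  have hε' : ∀ n, ε n = 1 ∨ ε n = -1 := by
    intro n
    by_cases h : n ∈ s
    · left; simp [hε, h]
    · right; simp [hε, h]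
  have h1 := hb t a ε hε'
  have h2 : (2 : ℝ) • ∑ n ∈ s, a n • b n =
      ∑ n ∈ t, a n • b n + ∑ n ∈ t, (ε n * a n) • b n := by
    rw [← Finset.sum_add_distrib, Finset.smul_sum, ← Finset.sum_sdiff hst]
    have h3 : ∑ n ∈ t \ s, (a n • b n + (ε n * a n) • b n) = 0 := by
      refine Finset.sum_eq_zero fun n hn => ?_
      have : n ∉ s := (Finset.mem_sdiff.mp hn).2
      simp [hε, this]
    rw [h3, zero_add]
    refine Finset.sum_congr rfl fun n hn => ?_
    simp only [hε, hn, if_true, one_mul]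
    rw [two_smul]
  have h4 : 2 * ‖∑ n ∈ s, a n • b n‖ ≤ 2 * ‖∑ n ∈ t, a n • b n‖ := by
    calc 2 * ‖∑ n ∈ s, a n • b n‖ = ‖(2 : ℝ) • ∑ n ∈ s, a n • b n‖ := by
          rw [norm_smul]; norm_num
      _ ≤ ‖∑ n ∈ t, a n • b n‖ + ‖∑ n ∈ t, (ε n * a n) • b n‖ := by
          rw [h2]; exact norm_add_le _ _
      _ = 2 * ‖∑ n ∈ t, a n • b n‖ := by rw [h1]; ring
  linarith

/-- Expansion of a finite sum into three blocks. -/
lemma sum_blocks {N n : ℕ} (hN : 1 ≤ N) (hn : N ≤ n) (p : ℝ) (a c : ℕ → ℝ) :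
    ∑ i ∈ Finset.range n, (if i = 0 then p else if i < N then a i else c i) • b i =
      p • b 0 + ∑ i ∈ Finset.Ico 1 N, a i • b i + ∑ i ∈ Finset.Ico N n, c i • b i := by
  rw [Finset.range_eq_Ico, ← Finset.sum_Ico_consecutive _ (Nat.zero_le N) hn,
    ← Finset.sum_Ico_consecutive _ (Nat.zero_le 1) hN]
  congr 1
  · congr 1
    · simp
    · refine Finset.sum_congr rfl fun i hi => ?_
      rw [Finset.mem_Ico] at hi
      rw [if_neg (by omega), if_pos hi.2]
  · refine Finset.sum_congr rfl fun i hi => ?_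
    rw [Finset.mem_Ico] at hi
    rw [if_neg (by omega), if_neg (by omega)]

lemma norm_block_one (hb : OneUnconditional b) {N n : ℕ} (hN : 1 ≤ N) (hn : N ≤ n) (p : ℝ)
    (a c : ℕ → ℝ) :
    ‖p • b 0 + ∑ i ∈ Finset.Ico N n, c i • b i‖ ≤
      ‖p • b 0 + ∑ i ∈ Finset.Ico 1 N, a i • b i + ∑ i ∈ Finset.Ico N n, c i • b i‖ := by
  rw [← sum_blocks b hN hn p a c]
  have hst : insert 0 (Finset.Ico N n) ⊆ Finset.range n := by
    intro i hi
    rw [Finset.mem_insert, Finset.mem_Ico] at hi
    rw [Finset.mem_range]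
    omega
  have h1 := norm_sum_le_of_subset b hb hst
    (fun i => if i = 0 then p else if i < N then a i else c i)
  refine le_trans (le_of_eq ?_) h1
  congr 1
  rw [Finset.sum_insert (by rw [Finset.mem_Ico]; omega)]
  congr 1
  refine Finset.sum_congr rfl fun i hi => ?_
  rw [Finset.mem_Ico] at hi
  rw [if_neg (by omega), if_neg (by omega)]

lemma norm_block_two (hb : OneUnconditional b) {N n : ℕ} (hN : 1 ≤ N) (hn : N ≤ n) (p : ℝ)
    (a c : ℕ → ℝ) :
    ‖∑ i ∈ Finset.Ico 1 N, a i • b i + ∑ i ∈ Finset.Ico N n, c i • b i‖ ≤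
      ‖p • b 0 + ∑ i ∈ Finset.Ico 1 N, a i • b i + ∑ i ∈ Finset.Ico N n, c i • b i‖ := by
  rw [← sum_blocks b hN hn p a c]
  have hst : Finset.Ico 1 n ⊆ Finset.range n := by
    intro i hi
    rw [Finset.mem_Ico] at hi
    rw [Finset.mem_range]
    omega
  have h1 := norm_sum_le_of_subset b hb hst
    (fun i => if i = 0 then p else if i < N then a i else c i)
  refine le_trans (le_of_eq ?_) h1
  congr 1
  rw [← Finset.sum_Ico_consecutive _ hN hn]
  congr 1
  · refine Finset.sum_congr rfl fun i hi => ?_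
    rw [Finset.mem_Ico] at hi
    rw [if_neg (by omega), if_pos hi.2]
  · refine Finset.sum_congr rfl fun i hi => ?_
    rw [Finset.mem_Ico] at hi
    rw [if_neg (by omega), if_neg (by omega)]

/-- The partial sum projections are contractive. -/
lemma norm_partial_le (hb : OneUnconditional b) (y : X) (n : ℕ) :
    ‖∑ i ∈ Finset.range n, b.coord i y • b i‖ ≤ ‖y‖ := by
  have h1 : Tendsto (fun m => ∑ i ∈ Finset.range m, b.coord i y • b i) atTop (𝓝 y) := by
    have := SchauderBasis.tendsto_proj b y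
    simpa using this
  refine ge_of_tendsto h1.norm ?_
  filter_upwards [eventually_ge_atTop n] with m hm
  exact norm_sum_le_of_subset b hb (Finset.range_mono hm) _

/-- Basic weak neighbourhoods given by finitely many coordinates. -/
lemma isOpen_nbhd (y0 : X) (N : ℕ) (δ : ℝ) :
    IsOpen {w : WeakSpace ℝ X | ∀ i ∈ Finset.range N,
      |b.coord i ((toWeakSpace ℝ X).symm w) - b.coord i y0| < δ} := by
  have h1 : {w : WeakSpace ℝ X | ∀ i ∈ Finset.range N,
      |b.coord i ((toWeakSpace ℝ X).symm w) - b.coord i y0| < δ} =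
      ⋂ i ∈ Finset.range N, {w : WeakSpace ℝ X |
        |b.coord i ((toWeakSpace ℝ X).symm w) - b.coord i y0| < δ} := by
    ext w; simp
  rw [h1]
  refine isOpen_biInter_finset fun i _ => ?_
  have hc : Continuous fun w : WeakSpace ℝ X => b.coord i ((toWeakSpace ℝ X).symm w) :=
    WeakBilin.eval_continuous (topDualPairing ℝ X).flip (b.coord i)
  exact isOpen_lt (hc.sub continuous_const).abs continuous_const

lemma coord_self (i : ℕ) : b.coord i (b i) = 1 := by
  rw [b.ortho]; simp

lemma coord_of_ne {i j : ℕ} (h : i ≠ j) : b.coord i (b j) = 0 := by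
  rw [b.ortho]; simp [h]

lemma basis_ne_zero (i : ℕ) : b i ≠ 0 := by
  intro h
  have h1 := coord_self b i
  rw [h, map_zero] at h1
  exact zero_ne_one h1

lemma tendsto_partial (y : X) :
    Tendsto (fun m => ∑ i ∈ Finset.range m, b.coord i y • b i) atTop (𝓝 y) := by
  have := SchauderBasis.tendsto_proj b y
  simpa using this

/-- Step 1: some finitely supported vector of norm at most one, supported off the first basis
vector, increases the norm of the normalised first basis vector. -/
lemma exists_increase (hb : OneUnconditional b) (hX : SuperADP X) :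
    ∃ (N : ℕ) (a : ℕ → ℝ), 1 ≤ N ∧ ‖∑ i ∈ Finset.Ico 1 N, a i • b i‖ ≤ 1 ∧
      1 < ‖‖b 0‖⁻¹ • b 0 + ∑ i ∈ Finset.Ico 1 N, a i • b i‖ := by
  by_contra hcon
  push Not at hcon
  have hr : 0 < ‖b 0‖ := norm_pos_iff.mpr (basis_ne_zero b 0)
  set r := ‖b 0‖ with hrdef
  set u : X := r⁻¹ • b 0 with hu
  have hu1 : ‖u‖ = 1 := by
    rw [hu, norm_smul, norm_inv, Real.norm_of_nonneg hr.le, ← hrdef]
    exact inv_mul_cancel₀ hr.ne'
  have hopen := isOpen_nbhd b 0 1 (1 / (2 * r))
  have hlub := hX u hu1 _ hopen ⟨0, by simp, by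
    intro i hi
    simp only [map_zero, sub_zero, abs_zero]
    positivity⟩
  have hub : (3 / 2 : ℝ) ∈ upperBounds ((fun y : X => max ‖u + y‖ ‖u - y‖) ''
      {y : X | ‖y‖ ≤ 1 ∧ toWeakSpace ℝ X y ∈ {w : WeakSpace ℝ X | ∀ i ∈ Finset.range 1,
        |b.coord i ((toWeakSpace ℝ X).symm w) - b.coord i 0| < 1 / (2 * r)}}) := by
    rintro _ ⟨y, ⟨hy1, hy2⟩, rfl⟩
    have hc0 : |b.coord 0 y| * r ≤ 1 / 2 := by
      have h1 := hy2 0 (by simp)
      simp only [LinearEquiv.symm_apply_apply, map_zero, sub_zero] at h1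
      calc |b.coord 0 y| * r ≤ (1 / (2 * r)) * r := by
            exact mul_le_mul_of_nonneg_right h1.le hr.le
        _ = 1 / 2 := by field_simp
    have hz : ∀ n, 1 ≤ n → ‖∑ i ∈ Finset.Ico 1 n, b.coord i y • b i‖ ≤ 1 := by
      intro n hn
      refine le_trans ?_ ((norm_partial_le b hb y n).trans hy1)
      exact norm_sum_le_of_subset b hb (by
        intro i hi
        rw [Finset.mem_Ico] at hi
        rw [Finset.mem_range]; exact hi.2) _
    have hdec : ∀ n, 1 ≤ n → ∑ i ∈ Finset.range n, b.coord i y • b i =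
        b.coord 0 y • b 0 + ∑ i ∈ Finset.Ico 1 n, b.coord i y • b i := by
      intro n hn
      rw [Finset.range_eq_Ico, ← Finset.sum_Ico_consecutive _ (Nat.zero_le 1) hn]
      simp
    have hsm : ‖b.coord 0 y • b 0‖ ≤ 1 / 2 := by
      rw [norm_smul, Real.norm_eq_abs]; exact hc0
    have hplus : ‖u + y‖ ≤ 3 / 2 := by
      have ht : Tendsto (fun m => ‖u + ∑ i ∈ Finset.range m, b.coord i y • b i‖) atTop
          (𝓝 ‖u + y‖) := ((tendsto_partial b y).const_add u).norm
      refine le_of_tendsto ht ?_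
      filter_upwards [eventually_ge_atTop 1] with n hn
      rw [hdec n hn]
      have h1 := hcon n (fun i => b.coord i y) hn (hz n hn)
      calc ‖u + (b.coord 0 y • b 0 + ∑ i ∈ Finset.Ico 1 n, b.coord i y • b i)‖
          = ‖(u + ∑ i ∈ Finset.Ico 1 n, b.coord i y • b i) + b.coord 0 y • b 0‖ := by
            congr 1; abel
        _ ≤ 1 + 1 / 2 := (norm_add_le _ _).trans (add_le_add h1 hsm)
        _ = 3 / 2 := by norm_num
    have hminus : ‖u - y‖ ≤ 3 / 2 := by
      have ht : Tendsto (fun m => ‖u - ∑ i ∈ Finset.range m, b.coord i y • b i‖) atTop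
          (𝓝 ‖u - y‖) := ((tendsto_partial b y).const_sub u).norm
      refine le_of_tendsto ht ?_
      filter_upwards [eventually_ge_atTop 1] with n hn
      rw [hdec n hn]
      have hneg : ∑ i ∈ Finset.Ico 1 n, (-b.coord i y) • b i =
          -∑ i ∈ Finset.Ico 1 n, b.coord i y • b i := by
        rw [← Finset.sum_neg_distrib]
        exact Finset.sum_congr rfl fun i _ => neg_smul _ _
      have h1 := hcon n (fun i => -b.coord i y) hn (by rw [hneg, norm_neg]; exact hz n hn)
      rw [hneg] at h1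
      calc ‖u - (b.coord 0 y • b 0 + ∑ i ∈ Finset.Ico 1 n, b.coord i y • b i)‖
          = ‖(u + -∑ i ∈ Finset.Ico 1 n, b.coord i y • b i) - b.coord 0 y • b 0‖ := by
            congr 1; abel
        _ ≤ 1 + 1 / 2 := (norm_sub_le _ _).trans (add_le_add h1 hsm)
        _ = 3 / 2 := by norm_num
    exact max_le hplus hminus
  have h2 := hlub.2 hub
  norm_num at h2

end aux

/-- No Banach space with a `1`-unconditional Schauder basis has the super alternative Daugavet
property. -/
theorem result (X : Type u) [NormedAddCommGroup X] [NormedSpace ℝ X] [CompleteSpace X]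
    (b : SchauderBasis ℝ X) (hb : OneUnconditional b) : ¬ SuperADP X := by
  intro hX
  obtain ⟨N, a, hN, hz1, hgt⟩ := exists_increase b hb hX
  have hr : 0 < ‖b 0‖ := norm_pos_iff.mpr (basis_ne_zero b 0)
  set r := ‖b 0‖ with hrdef
  obtain ⟨z, hz⟩ : ∃ z : X, z = ∑ i ∈ Finset.Ico 1 N, a i • b i := ⟨_, rfl⟩
  obtain ⟨u, hu⟩ : ∃ u : X, u = r⁻¹ • b 0 := ⟨_, rfl⟩
  rw [← hz] at hz1
  rw [← hz, ← hu] at hgt
  have hu1 : ‖u‖ = 1 := by
    rw [hu, norm_smul, norm_inv, Real.norm_of_nonneg hr.le, ← hrdef]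
    exact inv_mul_cancel₀ hr.ne'
  obtain ⟨t, ht⟩ : ∃ t : ℝ, t = ‖u + z‖⁻¹ := ⟨_, rfl⟩
  have ht0 : 0 < t := by rw [ht]; positivity
  have ht1 : t < 1 := by rw [ht]; exact inv_lt_one_of_one_lt₀ hgt
  -- the two vectors
  obtain ⟨x, hx⟩ : ∃ x : X, x = t • (u + z) := ⟨_, rfl⟩
  obtain ⟨y0, hy0⟩ : ∃ y0 : X, y0 = t • (u - z) := ⟨_, rfl⟩
  have hx1 : ‖x‖ = 1 := by
    rw [hx, norm_smul, Real.norm_of_nonneg ht0.le, ht]
    exact inv_mul_cancel₀ (by positivity)
  have hxy : ‖u - z‖ = ‖u + z‖ := by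
    have h1 := hb (Finset.range N) (fun i => if i = 0 then r⁻¹ else if i < N then a i else 0)
      (fun i => if i = 0 then 1 else -1) (by
        intro n
        by_cases h : n = 0
        · left; simp [h]
        · right; simp [h])
    have h2 : ∑ n ∈ Finset.range N, (if n = 0 then r⁻¹ else if n < N then a n else 0) • b n =
        u + z := by
      rw [sum_blocks b hN le_rfl r⁻¹ a (fun _ => 0), hu, hz]
      simp
    have h3 : ∑ n ∈ Finset.range N, ((if n = 0 then (1 : ℝ) else -1) *
        (if n = 0 then r⁻¹ else if n < N then a n else 0)) • b n = u - z := by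
      have h4 : ∑ n ∈ Finset.range N, ((if n = 0 then (1 : ℝ) else -1) *
          (if n = 0 then r⁻¹ else if n < N then a n else 0)) • b n =
          ∑ n ∈ Finset.range N, (if n = 0 then r⁻¹ else if n < N then (-a n) else 0) • b n := by
        refine Finset.sum_congr rfl fun n hn => ?_
        rw [Finset.mem_range] at hn
        by_cases h : n = 0
        · simp [h]
        · simp [h, hn]
      rw [h4, sum_blocks b hN le_rfl r⁻¹ (fun i => -a i) (fun _ => 0), hu, hz]
      simp [sub_eq_add_neg]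
    rw [h2] at h1
    rw [← h1]
    congr 1
    exact h3.symm
  have hy01 : ‖y0‖ = 1 := by
    rw [hy0, norm_smul, hxy, Real.norm_of_nonneg ht0.le, ht]
    exact inv_mul_cancel₀ (by positivity)
  obtain ⟨η, hη⟩ : ∃ η : ℝ, η = (1 - t) / 4 := ⟨_, rfl⟩
  have hη0 : 0 < η := by rw [hη]; linarith
  obtain ⟨B, hB⟩ : ∃ B : ℝ, B = ∑ i ∈ Finset.range N, ‖b i‖ := ⟨_, rfl⟩
  have hB0 : 0 ≤ B := by rw [hB]; exact Finset.sum_nonneg fun _ _ => norm_nonneg _
  obtain ⟨δ, hδ⟩ : ∃ δ : ℝ, δ = η / (B + 1) := ⟨_, rfl⟩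
  have hδ0 : 0 < δ := by rw [hδ]; positivity
  have hδB : δ * B ≤ η := by
    rw [hδ, div_mul_eq_mul_div, div_le_iff₀ (by positivity)]
    nlinarith
  have hlub := hX x hx1 _ (isOpen_nbhd b y0 N δ) ⟨y0, hy01.le, by
    intro i _
    simp only [LinearEquiv.symm_apply_apply, sub_self, abs_zero]
    exact hδ0⟩
  have hub : ((3 + t) / 2 : ℝ) ∈ upperBounds ((fun y : X => max ‖x + y‖ ‖x - y‖) ''
      {y : X | ‖y‖ ≤ 1 ∧ toWeakSpace ℝ X y ∈ {w : WeakSpace ℝ X | ∀ i ∈ Finset.range N,
        |b.coord i ((toWeakSpace ℝ X).symm w) - b.coord i y0| < δ}}) := by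
    rintro _ ⟨y, ⟨hy1, hy2⟩, rfl⟩
    have hclose : ∀ i ∈ Finset.range N, |b.coord i y - b.coord i y0| < δ := by
      intro i hi
      have h1 := hy2 i hi
      simpa only [LinearEquiv.symm_apply_apply] using h1
    -- coordinates of y0
    have hy0exp : ∑ i ∈ Finset.range N, b.coord i y0 • b i = y0 := by
      have hrep : y0 = ∑ i ∈ Finset.range N,
          (if i = 0 then t * r⁻¹ else if i < N then -(t * a i) else 0) • b i := by
        rw [sum_blocks b hN le_rfl (t * r⁻¹) (fun i => -(t * a i)) (fun _ => 0), hy0, hu, hz]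
        simp only [zero_smul, Finset.sum_const_zero, add_zero, smul_add, smul_neg, smul_smul,
          Finset.smul_sum, neg_smul, Finset.sum_neg_distrib, sub_eq_add_neg]
      have hco : ∀ i ∈ Finset.range N, b.coord i y0 =
          (if i = 0 then t * r⁻¹ else if i < N then -(t * a i) else 0) := by
        intro i hi
        conv_lhs => rw [hrep]
        rw [map_sum, Finset.sum_eq_single i]
        · rw [map_smul, coord_self, smul_eq_mul, mul_one]
        · intro j _ hji
          rw [map_smul, coord_of_ne b (Ne.symm hji), smul_zero]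
        · intro h; exact absurd hi h
      rw [Finset.sum_congr rfl fun i hi => by rw [hco i hi]]
      exact hrep.symm
    have hdiff : ‖∑ i ∈ Finset.range N, b.coord i y • b i - y0‖ ≤ η := by
      have h1 : ∑ i ∈ Finset.range N, b.coord i y • b i - y0 =
          ∑ i ∈ Finset.range N, (b.coord i y - b.coord i y0) • b i := by
        conv_lhs => rw [← hy0exp]
        rw [← Finset.sum_sub_distrib]
        exact Finset.sum_congr rfl fun i _ => (sub_smul _ _ _).symm
      rw [h1]
      calc ‖∑ i ∈ Finset.range N, (b.coord i y - b.coord i y0) • b i‖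
          ≤ ∑ i ∈ Finset.range N, ‖(b.coord i y - b.coord i y0) • b i‖ := norm_sum_le _ _
        _ ≤ ∑ i ∈ Finset.range N, δ * ‖b i‖ := by
            refine Finset.sum_le_sum fun i hi => ?_
            rw [norm_smul, Real.norm_eq_abs]
            exact mul_le_mul_of_nonneg_right (hclose i hi).le (norm_nonneg _)
        _ = δ * B := by rw [← Finset.mul_sum, hB]
        _ ≤ η := hδB
    have hmain : ∀ n, N ≤ n →
        ‖x + ∑ i ∈ Finset.range n, b.coord i y • b i‖ ≤ (3 + t) / 2 ∧
        ‖x - ∑ i ∈ Finset.range n, b.coord i y • b i‖ ≤ (3 + t) / 2 := by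
      intro n hn
      obtain ⟨v, hv⟩ : ∃ v : X, v = ∑ i ∈ Finset.Ico N n, b.coord i y • b i := ⟨_, rfl⟩
      obtain ⟨d, hd⟩ : ∃ d : X, d = ∑ i ∈ Finset.range N, b.coord i y • b i - y0 := ⟨_, rfl⟩
      rw [← hd] at hdiff
      have hP : ∑ i ∈ Finset.range n, b.coord i y • b i = d + y0 + v := by
        rw [Finset.range_eq_Ico, ← Finset.sum_Ico_consecutive _ (Nat.zero_le N) hn,
          ← Finset.range_eq_Ico, ← hv, hd]
        abel
      have hPn : ‖d + y0 + v‖ ≤ 1 := by
        rw [← hP]; exact (norm_partial_le b hb y n).trans hy1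
      have hyv : ‖y0 + v‖ ≤ 1 + η := by
        calc ‖y0 + v‖ = ‖(d + y0 + v) - d‖ := by congr 1; abel
          _ ≤ ‖d + y0 + v‖ + ‖d‖ := norm_sub_le _ _
          _ ≤ 1 + η := add_le_add hPn hdiff
      have hrep : y0 + v = (t * r⁻¹) • b 0 + ∑ i ∈ Finset.Ico 1 N, (-(t * a i)) • b i +
          ∑ i ∈ Finset.Ico N n, b.coord i y • b i := by
        rw [hy0, hu, hz, hv]
        simp only [smul_add, smul_neg, smul_smul, Finset.smul_sum, neg_smul,
          Finset.sum_neg_distrib, sub_eq_add_neg]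
      have h1 : ‖t • u + v‖ ≤ 1 + η := by
        have h2 := norm_block_one b hb hN hn (t * r⁻¹) (fun i => -(t * a i))
          (fun i => b.coord i y)
        rw [← hrep] at h2
        refine le_trans (le_of_eq ?_) (h2.trans hyv)
        rw [hu, hv, smul_smul]
      have h3 : ‖t • z - v‖ ≤ 1 + η := by
        have h2 := norm_block_two b hb hN hn (t * r⁻¹) (fun i => -(t * a i))
          (fun i => b.coord i y)
        rw [← hrep] at h2
        refine le_trans (le_of_eq ?_) (h2.trans hyv)
        rw [← norm_neg, hz, hv]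
        congr 1
        simp only [neg_smul, Finset.sum_neg_distrib, Finset.smul_sum, smul_smul]
        abel
      have h4 : ‖t • u‖ = t := by rw [norm_smul, hu1, mul_one, Real.norm_of_nonneg ht0.le]
      have h5 : ‖t • z‖ ≤ t := by
        rw [norm_smul, Real.norm_of_nonneg ht0.le]
        calc t * ‖z‖ ≤ t * 1 := mul_le_mul_of_nonneg_left hz1 ht0.le
          _ = t := mul_one t
      rw [hP]
      constructor
      · have h6 : x + (d + y0 + v) = t • u + (t • u + v) + d := by
          rw [hx, hy0, smul_add, smul_sub]; abel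
        rw [h6]
        calc ‖t • u + (t • u + v) + d‖ ≤ ‖t • u + (t • u + v)‖ + ‖d‖ := norm_add_le _ _
          _ ≤ (‖t • u‖ + ‖t • u + v‖) + ‖d‖ := by
              gcongr; exact norm_add_le _ _
          _ ≤ (t + (1 + η)) + η := by
              rw [h4]; gcongr
          _ = (3 + t) / 2 := by rw [hη]; ring
      · have h6 : x - (d + y0 + v) = t • z + (t • z - v) - d := by
          rw [hx, hy0, smul_add, smul_sub]; abel
        rw [h6]
        calc ‖t • z + (t • z - v) - d‖ ≤ ‖t • z + (t • z - v)‖ + ‖d‖ := norm_sub_le _ _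
          _ ≤ (‖t • z‖ + ‖t • z - v‖) + ‖d‖ := by
              gcongr; exact norm_add_le _ _
          _ ≤ (t + (1 + η)) + η := by
              gcongr
          _ = (3 + t) / 2 := by rw [hη]; ring
    refine max_le ?_ ?_
    · have ht' : Tendsto (fun m => ‖x + ∑ i ∈ Finset.range m, b.coord i y • b i‖) atTop
          (𝓝 ‖x + y‖) := ((tendsto_partial b y).const_add x).norm
      refine le_of_tendsto ht' ?_
      filter_upwards [eventually_ge_atTop N] with n hn
      exact (hmain n hn).1
    · have ht' : Tendsto (fun m => ‖x - ∑ i ∈ Finset.range m, b.coord i y • b i‖) atTop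
          (𝓝 ‖x - y‖) := ((tendsto_partial b y).const_sub x).norm
      refine le_of_tendsto ht' ?_
      filter_upwards [eventually_ge_atTop N] with n hn
      exact (hmain n hn).2
  have h7 := hlub.2 hub
  linarith

end Pool.Agent.Results.MP_235f01_an.UnconditionalFails
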